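import Mathlib

/-!
The unit-cost arithmetic model with comparisons and roots of unity, for approximate output.

The machine has a control state in an arbitrary type `σ`, a list of integer registers and a list
of complex registers. Every instruction costs one step; a computed value is appended to its list
as a new register, and a register beyond the end of a list reads `0`. The initial control state
is a function of a random seed `ω : Ω` and of the input.
-/

namespace Pool.Agent.MP_d958de_lc.H19

open MeasureTheory

/-- One instruction; `i`, `j` are the registers read, `s` is the next control state. -/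
inductive Op (σ : Type) : Type
  | iop (a b c e : ℤ) (i j : ℕ) (s : σ) : Op σ
  | imod (i : ℕ) (s : σ) : Op σ
  | cop (a b c e : ℂ) (i j : ℕ) (s : σ) : Op σ
  | div (i j : ℕ) (s : σ) : Op σ
  | conj (i : ℕ) (s : σ) : Op σ
  | cast (i : ℕ) (s : σ) : Op σ
  | root (i : ℕ) (s : σ) : Op σ
  | branch (s : (ℕ → ℕ → Prop) → σ) : Op σ
  | halt (out : ℕ → ℕ) : Op σ

/-- An algorithm: the instruction of each control state and the initial control state. -/
structure Alg (σ Ω : Type) : Type where
  prog : σ → Op σ
  start : Ω → ℕ → Finset ℕ → Finset ℕ → (ℕ → ℂ) → σ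

/-- The root of unity `e^{-2πit/d}`. -/
noncomputable def rootOfUnity (d : ℕ) (t : ℤ) : ℂ :=
  Complex.exp (-(2 * Real.pi * Complex.I * t / d))

/-- One step on a configuration (control state, integer registers, complex registers). A branch
sees the outcomes of all comparisons between real parts of complex registers. -/
noncomputable def exec {σ : Type} (prog : σ → Op σ) (d : ℕ) :
    σ × List ℤ × List ℂ → σ × List ℤ × List ℂ
  | (s₀, I, Z) =>
    match prog s₀ with
    | .iop a b c e i j s =>
      (s, I ++ [a * I.getD i 0 * I.getD j 0 + b * I.getD i 0 + c * I.getD j 0 + e], Z)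
    | .imod i s => (s, I ++ [I.getD i 0 % d], Z)
    | .cop a b c e i j s =>
      (s, I, Z ++ [a * Z.getD i 0 * Z.getD j 0 + b * Z.getD i 0 + c * Z.getD j 0 + e])
    | .div i j s => (s, I, Z ++ [Z.getD i 0 / Z.getD j 0])
    | .conj i s => (s, I, Z ++ [starRingEnd ℂ (Z.getD i 0)])
    | .cast i s => (s, I, Z ++ [(I.getD i 0 : ℂ)])
    | .root i s => (s, I, Z ++ [rootOfUnity d (I.getD i 0)])
    | .branch s => (s fun i j => (Z.getD i 0).re ≤ (Z.getD j 0).re, I, Z)
    | .halt _ => (s₀, I, Z)

variable {σ Ω : Type}

/-- The configuration after `n` steps. The integer registers start as the increasing list of `R`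
followed by that of `C`, the complex registers as the values of `v` along `C`. -/
noncomputable def Alg.run (A : Alg σ Ω) (d : ℕ) (R C : Finset ℕ) (v : ℕ → ℂ) (ω : Ω) (n : ℕ) :
    σ × List ℤ × List ℂ :=
  (exec A.prog d)^[n] (A.start ω d R C v, (R.sort ++ C.sort).map fun k : ℕ => (k : ℤ), C.sort.map v)

/-- Free preprocessing on one side only: the initial control state does not depend on `R`, or it
does not depend on `(C, v)`. -/
def Alg.OneSided (A : Alg σ Ω) : Prop :=
  (∀ ω d R R' C v, A.start ω d R C v = A.start ω d R' C v) ∨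
    ∀ ω d R C C' v v', A.start ω d R C v = A.start ω d R C' v'

/-- The number of steps made before a `halt` instruction is reached (`0` if there is none). -/
noncomputable def Alg.time (A : Alg σ Ω) (d : ℕ) (R C : Finset ℕ) (v : ℕ → ℂ) (ω : Ω) : ℕ :=
  sInf {n | ∃ out, A.prog (A.run d R C v ω n).1 = .halt out}

/-- The entry of `F_{RC} v` in row `j`. -/
noncomputable def entry (d : ℕ) (C : Finset ℕ) (v : ℕ → ℂ) (j : ℕ) : ℂ :=
  ∑ k ∈ C, ((Real.sqrt d : ℝ) : ℂ)⁻¹ * rootOfUnity d ((j : ℤ) * (k : ℤ)) * v k

/-- The run halts, and its output `w` (register `out i` for the `i`-th smallest row) satisfies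
`‖w - y‖² ≤ ε² max (‖y‖², (m / d) ‖v‖²)` for `y = F_{RC} v`. -/
def Alg.Approx (A : Alg σ Ω) (ε : ℝ) (d : ℕ) (R C : Finset ℕ) (v : ℕ → ℂ) (ω : Ω) : Prop :=
  ∃ n out, A.prog (A.run d R C v ω n).1 = .halt out ∧
    ∑ i ∈ Finset.range C.card,
        ‖(A.run d R C v ω n).2.2.getD (out i) 0 - entry d C v (R.sort.getD i 0)‖ ^ 2 ≤
      ε ^ 2 * max (∑ j ∈ R, ‖entry d C v j‖ ^ 2) (C.card / d * ∑ k ∈ C, ‖v k‖ ^ 2)

variable [MeasurableSpace Ω]

/-- On every input `(d, C, v)` the output is `ε`-approximate with probability at least `δ` over a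
uniformly random `|C|`-element subset `R` of `{0, …, d-1}` and the seed; the running time is a
measurable function of the seed. -/
def Alg.Computes (A : Alg σ Ω) (P : Measure Ω) (ε δ : ℝ) : Prop :=
  ∀ (d : ℕ) (C : Finset ℕ) (v : ℕ → ℂ), 1 ≤ d → C ⊆ Finset.range d →
    ∃ G : Finset ℕ → Set Ω,
      ENNReal.ofReal δ ≤ (∑ R ∈ (Finset.range d).powersetCard C.card, P (G R)) /
        (d.choose C.card : ENNReal) ∧
      ∀ R ∈ (Finset.range d).powersetCard C.card, Measurable (A.time d R C v) ∧
        MeasurableSet (G R) ∧ ∀ ω ∈ G R, A.Approx ε d R C v ω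

/-- Expected running time over a uniformly random `|C|`-element subset `R` of `{0, …, d-1}` and
the seed. -/
noncomputable def Alg.expectedTime (A : Alg σ Ω) (P : Measure Ω) (d : ℕ) (C : Finset ℕ)
    (v : ℕ → ℂ) : ENNReal :=
  (∑ R ∈ (Finset.range d).powersetCard C.card, ∫⁻ ω, (A.time d R C v ω : ENNReal) ∂P) /
    (d.choose C.card : ENNReal)

/-- Probability, over a uniformly random `|C|`-element subset `R` of `{0, …, d-1}` and the seed,
that the running time exceeds `t`. -/
noncomputable def Alg.probExceeds (A : Alg σ Ω) (P : Measure Ω) (d : ℕ) (C : Finset ℕ)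
    (v : ℕ → ℂ) (t : ℝ) : ENNReal :=
  (∑ R ∈ (Finset.range d).powersetCard C.card, P {ω | t < (A.time d R C v ω : ℝ)}) /
    (d.choose C.card : ENNReal)

end Pool.Agent.MP_d958de_lc.H19
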